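import Pool.Agent.Helper9.SeqFreq
import Pool.Agent.Helper9.CFTails
import Pool.Agent.Helper9.GaussKuzmin

/-!
There is an explicit type of continued fraction simply normal number `x` such that all digit
frequencies of `x / 2` exist, but the digit `1` has frequency `4/15` (instead of
`log_2 (4/3) = 0.415...`), the digit `2` has frequency `1/15` and all other even digits have
frequency `0`.
-/

set_option autoImplicit false

open Filter Topology

namespace Pool.Agent.Results.MP_219c9f_nt.HalfDigitFrequencies

/-- The iterates `x_0 = {x}`, `x_{i+1} = {1 / x_i}` of the Gauss map. -/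
noncomputable def gaussIter (x : ℝ) : ℕ → ℝ
  | 0 => Int.fract x
  | n + 1 => Int.fract (1 / gaussIter x n)

/-- The partial quotients of `x`: `pq x i = a_{i+1}` (the integer part `a_0` is ignored). -/
noncomputable def pq (x : ℝ) (i : ℕ) : ℕ := ⌊1 / gaussIter x i⌋₊

/-- The asymptotic frequency of the integer `k` among the partial quotients of `x` exists and
equals `p`. -/
def HasDigitFreq (x : ℝ) (k : ℕ) (p : ℝ) : Prop :=
  Tendsto (fun n : ℕ => (((Finset.range n).filter fun i => pq x i = k).card : ℝ) / (n : ℝ))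
    atTop (𝓝 p)

/-- `x` is CF-simply normal. -/
def CFSimplyNormal (x : ℝ) : Prop :=
  Irrational x ∧ ∀ k : ℕ, 1 ≤ k →
    HasDigitFreq x k (Real.logb 2 (((k : ℝ) + 1) ^ 2 / ((k : ℝ) * ((k : ℝ) + 2))))

open Pool.Agent.Helper9

/-- Target frequencies for the free digits. -/
noncomputable def Q (k : ℕ) : ℝ :=
  (25 * gk k - 10 * (if k = 1 then 1 else 0) - 4 * (if k = 2 then 1 else 0)
    - (if k = 4 then 1 else 0)) / 10

theorem Q_zero : Q 0 = 0 := by simp [Q, gk_zero]

theorem Q_nonneg (k : ℕ) : 0 ≤ Q k := by
  unfold Q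
  have h1 := gk_one
  have h2 := gk_two
  have h4 := gk_four
  by_cases e1 : k = 1
  · subst e1; norm_num; linarith
  by_cases e2 : k = 2
  · subst e2; norm_num; linarith
  by_cases e4 : k = 4
  · subst e4; norm_num; linarith
  · rw [if_neg e1, if_neg e2, if_neg e4]
    have := gk_nonneg k
    linarith

theorem Q_hasSum : HasSum Q 1 := by
  have h1 : HasSum (fun k : ℕ => (if k = 1 then (1:ℝ) else 0)) 1 := hasSum_ite_eq 1 1
  have h2 : HasSum (fun k : ℕ => (if k = 2 then (1:ℝ) else 0)) 1 := hasSum_ite_eq 2 1
  have h4 : HasSum (fun k : ℕ => (if k = 4 then (1:ℝ) else 0)) 1 := hasSum_ite_eq 4 1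
  have h := ((((gk_hasSum.mul_left 25).sub (h1.mul_left 10)).sub (h2.mul_left 4)).sub h4).div_const 10
  have e : ((25 * 1 - 10 * 1 - 4 * 1 - 1) / 10 : ℝ) = 1 := by norm_num
  rw [e] at h
  exact h

theorem Q_shift_hasSum : HasSum (fun k => Q (k + 1)) 1 := by
  rw [hasSum_nat_add_iff (f := Q) 1]
  simpa [Q_zero] using Q_hasSum

theorem exists_free : ∃ f : ℕ → ℕ, (∀ n, 1 ≤ f n) ∧ ∀ k, 1 ≤ k → Tendsto
      (fun n : ℕ => (((Finset.range n).filter (fun i => f i = k)).card : ℝ) / (n : ℝ))
      atTop (𝓝 (Q k)) := by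
  obtain ⟨g, hg⟩ := exists_seq_freq (fun k => Q (k + 1)) (fun k => Q_nonneg _) Q_shift_hasSum
  refine ⟨fun n => g n + 1, fun n => Nat.le_add_left 1 (g n), fun k hk => ?_⟩
  obtain ⟨m, rfl⟩ : ∃ m, k = m + 1 := ⟨k - 1, by omega⟩
  simpa using hg m

/-- A sequence built from blocks of length `B`: the count of a value in the `N`-th block is
`A * [f N = v] + C`. -/
theorem block_freq (d : ℕ → ℕ) (f : ℕ → ℕ) (k v B A C : ℕ) (hB : 0 < B) (q : ℝ)
    (hblock : ∀ N, ((Finset.range B).filter fun r => d (B * N + r) = k).card =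
      A * (if f N = v then 1 else 0) + C)
    (h : Tendsto
      (fun n : ℕ => (((Finset.range n).filter (fun i => f i = v)).card : ℝ) / (n : ℝ))
      atTop (𝓝 q)) :
    Tendsto
      (fun n : ℕ => (((Finset.range n).filter (fun i => d i = k)).card : ℝ) / (n : ℝ))
      atTop (𝓝 ((A * q + C) / B)) := by
  have hsum : ∀ N, ((Finset.range (B * N)).filter (fun i => d i = k)).card =
      A * ((Finset.range N).filter (fun i => f i = v)).card + C * N := by
    intro N
    induction N with
    | zero => simp
    | succ N ih =>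
      have hb := hblock N
      rw [Finset.card_filter] at ih hb ⊢
      rw [Nat.mul_succ, Finset.sum_range_add, ih, hb, Finset.card_filter, Finset.card_filter,
        Finset.sum_range_succ]
      ring
  apply tendsto_div_of_monotone_of_exists_subseq_tendsto_div
    (fun n : ℕ => (((Finset.range n).filter (fun i => d i = k)).card : ℝ))
  · intro m n hmn
    simp only
    have : ((Finset.range m).filter (fun i => d i = k)).card ≤
        ((Finset.range n).filter (fun i => d i = k)).card := by
      apply Finset.card_le_card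
      apply Finset.filter_subset_filter
      exact Finset.range_subset_range.mpr hmn
    exact_mod_cast this
  · intro a ha
    have hB' : (0 : ℝ) < B := by exact_mod_cast hB
    refine ⟨fun N => B * N, ?_, ?_, ?_⟩
    · have h1 : Tendsto (fun N : ℕ => (a - 1) * (B * (N : ℝ))) atTop atTop := by
        refine Tendsto.const_mul_atTop (by linarith) ?_
        exact Tendsto.const_mul_atTop hB' tendsto_natCast_atTop_atTop
      filter_upwards [h1.eventually_ge_atTop (B : ℝ)] with N hN
      push_cast
      linarith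
    · exact tendsto_id.const_mul_atTop' hB
    · have h2 := ((h.const_mul (A : ℝ)).add_const (C : ℝ)).div_const (B : ℝ)
      refine h2.congr' ?_
      filter_upwards [eventually_gt_atTop 0] with N hN
      simp only [hsum]
      have hN' : (0:ℝ) < N := by exact_mod_cast hN
      push_cast
      field_simp

/-- The digit pattern `(f, 1, 1, f, e)`, with `e = 4` in every fifth block and `e = 2`
otherwise; the free digits `f` are constant on each block of length `25`. -/
def dig (f : ℕ → ℕ) (n : ℕ) : ℕ :=
  if n % 5 = 0 ∨ n % 5 = 3 then f (n / 25)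
  else if n % 5 = 4 then (if n % 25 = 24 then 4 else 2) else 1

theorem dig_pos (f : ℕ → ℕ) (hf : ∀ n, 1 ≤ f n) (n : ℕ) : 1 ≤ dig f n := by
  unfold dig
  have := hf (n / 25)
  split_ifs <;> omega

/-- The digits of the half. -/
def out (f : ℕ → ℕ) (n : ℕ) : ℕ :=
  if n % 3 = 0 then 2 * dig f (5 * (n / 3)) + 1
  else if n % 3 = 1 then 2 * dig f (5 * (n / 3) + 3) + 1
  else dig f (5 * (n / 3) + 4) / 2

theorem dig_block (f : ℕ → ℕ) (k N : ℕ) :
    ((Finset.range 25).filter fun r => dig f (25 * N + r) = k).card =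
      10 * (if f N = k then 1 else 0) + (10 * (if k = 1 then 1 else 0)
        + 4 * (if k = 2 then 1 else 0) + (if k = 4 then 1 else 0)) := by
  have hr : ∀ r < 25, dig f (25 * N + r) =
      if r % 5 = 0 ∨ r % 5 = 3 then f N
      else if r % 5 = 4 then (if r = 24 then 4 else 2) else 1 := by
    intro r hr
    unfold dig
    have e1 : (25 * N + r) % 5 = r % 5 := by omega
    have e2 : (25 * N + r) / 25 = N := by omega
    have e3 : (25 * N + r) % 25 = r := by omega
    rw [e1, e2, e3]
  rw [Finset.card_filter]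
  have : ∑ x ∈ Finset.range 25, (if dig f (25 * N + x) = k then 1 else 0) =
    ∑ x ∈ Finset.range 25, (if (if x % 5 = 0 ∨ x % 5 = 3 then f N
    else if x % 5 = 4 then (if x = 24 then 4 else 2) else 1) = k then 1 else 0) := by
    refine Finset.sum_congr rfl (fun x hx => ?_)
    rw [hr x (Finset.mem_range.mp hx)]
  rw [this]
  simp only [Finset.sum_range_succ, Finset.sum_range_zero]
  norm_num
  simp only [eq_comm (a := k)]
  split_ifs <;> norm_num

theorem out_block (f : ℕ → ℕ) (k N : ℕ) :
    ((Finset.range 15).filter fun r => out f (15 * N + r) = k).card =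
      10 * (if 2 * f N + 1 = k then 1 else 0) + (4 * (if k = 1 then 1 else 0)
        + (if k = 2 then 1 else 0)) := by
  have hr : ∀ r < 15, out f (15 * N + r) =
      if r % 3 = 2 then (if r = 14 then 2 else 1) else 2 * f N + 1 := by
    intro r hr
    have hd0 : ∀ j < 5, dig f (5 * (5 * N + j)) = f N := by
      intro j hj
      unfold dig
      rw [if_pos (by omega)]
      congr 1
      omega
    have hd3 : ∀ j < 5, dig f (5 * (5 * N + j) + 3) = f N := by
      intro j hj
      unfold dig
      rw [if_pos (by omega)]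
      congr 1
      omega
    have hd4 : ∀ j < 5, dig f (5 * (5 * N + j) + 4) = if j = 4 then 4 else 2 := by
      intro j hj
      unfold dig
      rw [if_neg (by omega), if_pos (by omega)]
      split_ifs <;> omega
    unfold out
    have e2 : (15 * N + r) / 3 = 5 * N + r / 3 := by omega
    have e3 : (15 * N + r) % 3 = r % 3 := by omega
    rw [e2, e3, hd0 _ (by omega), hd3 _ (by omega), hd4 _ (by omega)]
    split_ifs <;> omega
  rw [Finset.card_filter]
  have : ∑ x ∈ Finset.range 15, (if out f (15 * N + x) = k then 1 else 0) =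
    ∑ x ∈ Finset.range 15, (if (if x % 3 = 2 then (if x = 14 then 2 else 1)
      else 2 * f N + 1) = k then 1 else 0) := by
    refine Finset.sum_congr rfl (fun x hx => ?_)
    rw [hr x (Finset.mem_range.mp hx)]
  rw [this]
  simp only [Finset.sum_range_succ, Finset.sum_range_zero]
  norm_num
  simp only [eq_comm (a := k)]
  split_ifs <;> norm_num

theorem gaussIter_of_tails (t : ℕ → ℝ) (c : ℕ → ℕ) (h1 : ∀ n, 1 < t n)
    (h : ∀ n, t n = (c n : ℝ) + 1 / t (n + 1)) (n : ℕ) : gaussIter (1 / t 0) n = 1 / t n := by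
  have hlt : ∀ n, 0 < 1 / t n ∧ 1 / t n < 1 := by
    intro n
    have := h1 n
    refine ⟨by positivity, ?_⟩
    rw [div_lt_one (by linarith)]
    exact this
  induction n with
  | zero =>
    have := hlt 0
    exact Int.fract_eq_self.2 ⟨this.1.le, this.2⟩
  | succ n ih =>
    have := hlt (n + 1)
    rw [gaussIter, ih, one_div_one_div, h n, Int.fract_natCast_add]
    exact Int.fract_eq_self.2 ⟨this.1.le, this.2⟩

theorem pq_of_tails (t : ℕ → ℝ) (c : ℕ → ℕ) (h1 : ∀ n, 1 < t n)
    (h : ∀ n, t n = (c n : ℝ) + 1 / t (n + 1)) (n : ℕ) : pq (1 / t 0) n = c n := by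
  have hlt : 0 < 1 / t (n + 1) ∧ 1 / t (n + 1) < 1 := by
    have := h1 (n + 1)
    refine ⟨by positivity, ?_⟩
    rw [div_lt_one (by linarith)]
    exact this
  rw [pq, gaussIter_of_tails t c h1 h n, one_div_one_div, Nat.floor_eq_iff (by linarith [h1 n]),
    h n]
  constructor <;> linarith [hlt.1, hlt.2]

theorem irrational_of_tails (t : ℕ → ℝ) (c : ℕ → ℕ) (h1 : ∀ n, 1 < t n)
    (h : ∀ n, t n = (c n : ℝ) + 1 / t (n + 1)) : Irrational (1 / t 0) := by
  have hx : ∀ i, (GenContFract.of (1 / t 0)).partDens.get? i = some ((c i : ℕ) : ℝ) := by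
    intro i
    let T : ℕ → ℝ := fun n => Nat.casesOn n (1 / t 0) (fun m => t m)
    let C : ℕ → ℕ := fun n => Nat.casesOn n 0 (fun m => c m)
    have := partDens_of_tails T C (fun n => h1 n) (fun n => by
      cases n with
      | zero => simp [T, C]
      | succ n => exact h n) i
    exact this
  rintro ⟨q, hq⟩
  obtain ⟨n, hn⟩ := (GenContFract.terminates_iff_rat (1 / t 0)).2 ⟨q, hq.symm⟩
  have h2 := hx n
  have h3 : (GenContFract.of (1 / t 0)).s.get? n = none := hn
  rw [GenContFract.partDens, Stream'.Seq.map_get?, h3] at h2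
  simp at h2

/-- The tails of the half. -/
theorem half_tails (f : ℕ → ℕ) (t : ℕ → ℝ) (ht1 : ∀ n, 1 < t n)
    (ht : ∀ n, t n = (dig f n : ℝ) + 1 / t (n + 1)) :
    ∃ s : ℕ → ℝ, s 0 = 2 * t 0 ∧ (∀ n, 1 < s n) ∧ ∀ n, s n = (out f n : ℝ) + 1 / s (n + 1) := by
  let s : ℕ → ℝ := fun n =>
    if n % 3 = 0 then 2 * t (5 * (n / 3))
    else if n % 3 = 1 then 2 * t (5 * (n / 3) + 3) + 1
    else t (5 * (n / 3) + 4) / 2
  have hdig1 : ∀ j, dig f (5 * j + 1) = 1 := by
    intro j
    unfold dig
    rw [if_neg (by omega), if_neg (by omega)]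
  have hdig2 : ∀ j, dig f (5 * j + 2) = 1 := by
    intro j
    unfold dig
    rw [if_neg (by omega), if_neg (by omega)]
  have hdig4 : ∀ j, dig f (5 * j + 4) = 2 ∨ dig f (5 * j + 4) = 4 := by
    intro j
    unfold dig
    rw [if_neg (by omega), if_pos (by omega)]
    split_ifs
    · right; rfl
    · left; rfl
  refine ⟨s, by simp [s], ?_, ?_⟩
  · intro n
    simp only [s]
    split_ifs
    · linarith [ht1 (5 * (n / 3))]
    · linarith [ht1 (5 * (n / 3) + 3)]
    · have h1 := ht (5 * (n / 3) + 4)
      have h2 := ht1 (5 * (n / 3) + 4 + 1)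
      have h3 : 0 < 1 / t (5 * (n / 3) + 4 + 1) := by positivity
      have h4 : (2:ℝ) ≤ (dig f (5 * (n / 3) + 4) : ℝ) := by
        rcases hdig4 (n / 3) with h | h <;> rw [h] <;> norm_num
      linarith
  · intro n
    obtain ⟨j, r, hr, rfl⟩ : ∃ j r, r < 3 ∧ n = 3 * j + r :=
      ⟨n / 3, n % 3, Nat.mod_lt _ (by norm_num), (Nat.div_add_mod n 3).symm⟩
    interval_cases r
    · -- position 0
      have e1 : s (3 * j + 0) = 2 * t (5 * j) := by
        simp only [s]
        rw [if_pos (by omega)]
        congr 2
        omega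
      have e2 : s (3 * j + 0 + 1) = 2 * t (5 * j + 3) + 1 := by
        simp only [s]
        rw [if_neg (by omega), if_pos (by omega)]
        congr 3
        omega
      have e3 : out f (3 * j + 0) = 2 * dig f (5 * j) + 1 := by
        simp only [out]
        rw [if_pos (by omega)]
        congr 3
        omega
      rw [e1, e2, e3, ht (5 * j), ht (5 * j + 1), ht (5 * j + 1 + 1)]
      have d1 := hdig1 j
      have d2 : dig f (5 * j + 1 + 1) = 1 := hdig2 j
      rw [d1, d2]
      have e4 : 5 * j + 1 + 1 + 1 = 5 * j + 3 := by ring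
      rw [e4]
      have hpos : 0 < t (5 * j + 3) := by linarith [ht1 (5 * j + 3)]
      push_cast
      field_simp
      ring
    · -- position 1
      have e1 : s (3 * j + 1) = 2 * t (5 * j + 3) + 1 := by
        simp only [s]
        rw [if_neg (by omega), if_pos (by omega)]
        congr 3
        omega
      have e2 : s (3 * j + 1 + 1) = t (5 * j + 4) / 2 := by
        simp only [s]
        rw [if_neg (by omega), if_neg (by omega)]
        congr 2
        omega
      have e3 : out f (3 * j + 1) = 2 * dig f (5 * j + 3) + 1 := by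
        simp only [out]
        rw [if_neg (by omega), if_pos (by omega)]
        congr 3
        omega
      rw [e1, e2, e3, ht (5 * j + 3)]
      have e4 : 5 * j + 3 + 1 = 5 * j + 4 := by ring
      rw [e4]
      have hpos : 0 < t (5 * j + 4) := by linarith [ht1 (5 * j + 4)]
      push_cast
      field_simp
      ring
    · -- position 2
      have e1 : s (3 * j + 2) = t (5 * j + 4) / 2 := by
        simp only [s]
        rw [if_neg (by omega), if_neg (by omega)]
        congr 2
        omega
      have e2 : s (3 * j + 2 + 1) = 2 * t (5 * j + 5) := by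
        simp only [s]
        rw [if_pos (by omega)]
        congr 2
        omega
      have e3 : out f (3 * j + 2) = dig f (5 * j + 4) / 2 := by
        simp only [out]
        rw [if_neg (by omega), if_neg (by omega)]
        congr 2
        omega
      rw [e1, e2, e3, ht (5 * j + 4)]
      have e4 : 5 * j + 4 + 1 = 5 * j + 5 := by ring
      rw [e4]
      have hpos : 0 < t (5 * j + 5) := by linarith [ht1 (5 * j + 5)]
      rcases hdig4 j with h | h
      · rw [h]
        norm_num
        field_simp
      · rw [h]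
        norm_num
        field_simp
        ring

theorem gk_eq (k : ℕ) (hk : 1 ≤ k) :
    Real.logb 2 (((k : ℝ) + 1) ^ 2 / ((k : ℝ) * ((k : ℝ) + 2))) = gk k := by
  unfold gk
  congr 1
  have : (0 : ℝ) < k := by exact_mod_cast hk
  field_simp
  ring

/-- **Theorem.** There is a CF-simply normal number `x` in `(0,1)` such that every positive
integer has an asymptotic frequency among the partial quotients of the irrational number `x / 2`,
and these frequencies are: `4/15` for the digit `1`, `1/15` for the digit `2`, `0` for the even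
digits `k ≥ 4`, and `(5/3) log_2 ((m+1)^2/(m(m+2)))` minus `2/3`, `4/15`, `1/15` in the cases
`m = 1`, `m = 2`, `m = 4`, for the odd digits `2m + 1`, `m ≥ 1`.  In particular `x / 2` is not
CF-simply normal (the frequency of `1` would have to be `log_2 (4/3) > 4/15`). -/
theorem result : ∃ x : ℝ, 0 < x ∧ x < 1 ∧ CFSimplyNormal x ∧ Irrational (x / 2) ∧
    HasDigitFreq (x / 2) 1 (4 / 15) ∧ HasDigitFreq (x / 2) 2 (1 / 15) ∧
    (∀ m : ℕ, 2 ≤ m → HasDigitFreq (x / 2) (2 * m) 0) ∧
    (∀ m : ℕ, 1 ≤ m → HasDigitFreq (x / 2) (2 * m + 1)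
      (5 / 3 * Real.logb 2 (((m : ℝ) + 1) ^ 2 / ((m : ℝ) * ((m : ℝ) + 2)))
        - (if m = 1 then 2 / 3 else if m = 2 then 4 / 15 else if m = 4 then 1 / 15 else 0))) ∧
    ¬ CFSimplyNormal (x / 2) := by
  obtain ⟨f, hf1, hf⟩ := exists_free
  obtain ⟨t, ht1, ht⟩ := exists_tails (dig f) (dig_pos f hf1)
  obtain ⟨s, hs0, hs1, hs⟩ := half_tails f t ht1 ht
  have hpos : 0 < t 0 := by linarith [ht1 0]
  have hhalf : 1 / t 0 / 2 = 1 / s 0 := by
    rw [hs0]
    field_simp
  have hirr : Irrational (1 / t 0 / 2) := by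
    rw [hhalf]
    exact irrational_of_tails s (out f) hs1 hs
  have hfreq : ∀ k v : ℕ, (∀ n, 2 * f n + 1 = k ↔ f n = v) → ∀ q : ℝ,
      Tendsto (fun n : ℕ => (((Finset.range n).filter (fun i => f i = v)).card : ℝ) / (n : ℝ))
        atTop (𝓝 q) → HasDigitFreq (1 / t 0 / 2) k ((10 * q + (4 * (if k = 1 then 1 else 0)
        + (if k = 2 then 1 else 0))) / 15) := by
    intro k v hkv q hq
    have h := block_freq (out f) f k v 15 10 (4 * (if k = 1 then 1 else 0)
        + (if k = 2 then 1 else 0)) (by norm_num) q (fun N => by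
          rw [out_block]
          congr 2
          exact if_congr (hkv N) rfl rfl) hq
    unfold HasDigitFreq
    rw [hhalf]
    simp only [pq_of_tails s (out f) hs1 hs]
    push_cast at h
    exact h
  have hzero : ∀ v : ℕ, (∀ n, f n ≠ v) →
      Tendsto (fun n : ℕ => (((Finset.range n).filter (fun i => f i = v)).card : ℝ) / (n : ℝ))
        atTop (𝓝 0) := by
    intro v hv
    have : ∀ n : ℕ, (((Finset.range n).filter (fun i => f i = v)).card : ℝ) / (n : ℝ) = 0 := by
      intro n
      rw [Finset.filter_false_of_mem (fun i _ => hv i)]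
      simp
    simp only [this]
    exact tendsto_const_nhds
  have h1 : HasDigitFreq (1 / t 0 / 2) 1 (4 / 15) := by
    have h := hfreq 1 0 (fun n => by omega) 0 (hzero 0 (fun n => by have := hf1 n; omega))
    convert h using 1
    norm_num
  refine ⟨1 / t 0, by positivity, ?_, ⟨irrational_of_tails t (dig f) ht1 ht, ?_⟩, hirr, h1, ?_,
    ?_, ?_, ?_⟩
  · rw [div_lt_one hpos]
    exact ht1 0
  · intro k hk
    have h := block_freq (dig f) f k k 25 10 (10 * (if k = 1 then 1 else 0)
        + 4 * (if k = 2 then 1 else 0) + (if k = 4 then 1 else 0)) (by norm_num) (Q k)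
        (fun N => dig_block f k N) (hf k hk)
    unfold HasDigitFreq
    simp only [pq_of_tails t (dig f) ht1 ht]
    convert h using 2
    rw [gk_eq k hk]
    unfold Q
    push_cast
    ring
  · have h := hfreq 2 0 (fun n => by have := hf1 n; omega) 0
      (hzero 0 (fun n => by have := hf1 n; omega))
    convert h using 1
    norm_num
  · intro m hm
    have h := hfreq (2 * m) 0 (fun n => by have := hf1 n; omega) 0
      (hzero 0 (fun n => by have := hf1 n; omega))
    rw [if_neg (by omega), if_neg (by omega)] at h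
    convert h using 1
    norm_num
  · intro m hm
    have h := hfreq (2 * m + 1) m (fun n => by omega) (Q m) (hf m hm)
    rw [if_neg (by omega), if_neg (by omega)] at h
    convert h using 1
    rw [gk_eq m hm]
    unfold Q
    by_cases e1 : m = 1
    · subst e1; norm_num; ring
    by_cases e2 : m = 2
    · subst e2; norm_num; ring
    by_cases e4 : m = 4
    · subst e4; norm_num; ring
    · rw [if_neg e1, if_neg e2, if_neg e4, if_neg e1, if_neg e2, if_neg e4]
      ring
  · intro hn
    have h2 := hn.2 1 le_rfl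
    have h3 := tendsto_nhds_unique h2 h1
    rw [gk_eq 1 le_rfl] at h3
    have := gk_one'
    linarith

end Pool.Agent.Results.MP_219c9f_nt.HalfDigitFrequencies
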